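import Mathlib
import Pool.Agent.R499.BadFinal
import Pool.Agent.Results.MP_fecc7a_nt.FiniteReach

set_option autoImplicit false

namespace Pool.Agent.Results.MP_fecc7a_nt.AlmostAllPrimes

open Filter Topology

/-- The map `n ↦ φ(n) + 1`. -/
def f (n : ℕ) : ℕ := Nat.totient n + 1

/-- `R p`: the positive integers whose orbit under `n ↦ φ(n) + 1` reaches `p`. -/
def R (p : ℕ) : Set ℕ := {n | 1 ≤ n ∧ ∃ i : ℕ, f^[i] n = p}

lemma finite_of_not_bad (p : ℕ) (hp : p.Prime) (h : ¬ Pool.Agent.R499.BadPrimes.Bad p) :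
    R p = {n : ℕ | 1 ≤ n ∧ Nat.totient n = p - 1} ∧ (R p).Finite := by
  have h1 : ∀ m : ℕ, Odd m → 1 < m → ¬ m.Prime → Nat.totient m ≠ p - 1 := by
    intro m hm h1 hmp he
    exact h ⟨hp, m, hm, h1, hmp, he⟩
  have h2 : R p = {n : ℕ | 1 ≤ n ∧ Nat.totient n = p - 1} :=
    Pool.Agent.Results.MP_fecc7a_nt.FiniteReach.R_eq_fibre hp h1
  refine ⟨h2, ?_⟩
  rw [h2]
  exact Pool.Agent.Results.MP_fecc7a_nt.FiniteReach.fibre_finite _

open Classical in
/-- Only finitely many integers reach `p`, for almost all primes `p`: the number of the primes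
`p ≤ X` for which `R p` is infinite, or is not just the fibre of the totient over `p - 1`, is
`O(X / (log X)^(6/5))`, and the primes with `R p` finite have relative density `1`. -/
theorem result :
    (∃ C : ℝ, 0 < C ∧ ∀ X : ℕ, 2 ≤ X →
      (((Finset.Icc 1 X).filter (fun p => p.Prime ∧
        ¬ (R p = {n : ℕ | 1 ≤ n ∧ Nat.totient n = p - 1} ∧ (R p).Finite))).card : ℝ) ≤
        C * X / Real.log X ^ (6 / 5 : ℝ)) ∧
    Tendsto (fun X : ℕ => (((Finset.Icc 1 X).filter (fun p => p.Prime ∧ (R p).Finite)).card : ℝ) /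
      (Nat.primeCounting X : ℝ)) atTop (𝓝 1) := by
  constructor
  · obtain ⟨C, hC0, hC⟩ := Pool.Agent.R499.BadPrimes.bad_final
    refine ⟨C, hC0, fun X hX => le_trans ?_ (hC X hX)⟩
    apply Nat.cast_le.2
    apply Finset.card_le_card
    intro p hp
    rw [Finset.mem_filter] at hp ⊢
    refine ⟨hp.1, ?_⟩
    by_contra hcon
    exact hp.2.2 (finite_of_not_bad p hp.2.1 hcon)
  · exact Pool.Agent.R499.BadPrimes.good_ratio (fun p => (R p).Finite)
      (fun p hp h => (finite_of_not_bad p hp h).2)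

end Pool.Agent.Results.MP_fecc7a_nt.AlmostAllPrimes
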